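import Pool.Agent.W172.MK.Stm

/-!
# MK-DDL: locality, symmetry, measurability, boundedness of the symbols
-/

set_option autoImplicit false

open MeasureTheory ProbabilityTheory Filter Topology

namespace Pool.Agent.W410.MK.DDL

open Pool.Agent.W172.MK

theorem ddl : P_DDL := by
  intro n M eps
  refine ⟨?_, ?_, ?_, ?_⟩
  · intro y z t
    induction t with
    | zero => rfl
    | succ t ih =>
      change Lam _ _ = Lam _ _
      rw [ih]
      congr 1
      funext b
      ring
  · intro y z z' t
    induction t with
    | zero => intro _; rfl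
    | succ t ih =>
      intro h
      change Lam _ _ = Lam _ _
      rw [ih (fun i hi => h i (Nat.lt_succ_of_lt hi)), h t (Nat.lt_succ_self t)]
  · intro t
    induction t with
    | zero =>
      intro b
      exact measurable_const
    | succ t ih =>
      intro b
      have h1 : ∀ b : V n, Measurable
          (fun w : (ℕ → Fin (M + 1)) × (ℕ → Fin (M + 1)) => eps (w.1 t) b) := fun b =>
        (measurable_of_finite (fun c => eps c b)).comp ((measurable_pi_apply t).comp measurable_fst)
      have h2 : ∀ b : V n, Measurable
          (fun w : (ℕ → Fin (M + 1)) × (ℕ → Fin (M + 1)) => eps (w.2 t) b) := fun b =>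
        (measurable_of_finite (fun c => eps c b)).comp ((measurable_pi_apply t).comp measurable_snd)
      change Measurable (fun w : (ℕ → Fin (M + 1)) × (ℕ → Fin (M + 1)) =>
        qq n / (qq n - 1) * ((∑ b', DD eps w.1 w.2 t b' * (eps (w.1 t) b' * eps (w.2 t) b')) / qq n -
          DD eps w.1 w.2 t b * (eps (w.1 t) b * eps (w.2 t) b) / qq n))
      refine Measurable.const_mul (Measurable.sub (Measurable.div_const ?_ _)
        (Measurable.div_const ((ih b).mul ((h1 b).mul (h2 b))) _)) _
      exact Finset.measurable_sum _ fun b' _ => (ih b').mul ((h1 b').mul (h2 b'))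
  · intro t
    obtain ⟨E, hE0, hE⟩ : ∃ E : ℝ, 0 ≤ E ∧ ∀ c b, |eps c b| ≤ E := by
      refine ⟨∑ c, ∑ b, |eps c b|, by positivity, fun c b => ?_⟩
      exact (Finset.single_le_sum (f := fun b => |eps c b|) (fun _ _ => abs_nonneg _)
        (Finset.mem_univ b)).trans
        (Finset.single_le_sum (f := fun c => ∑ b, |eps c b|)
          (fun _ _ => Finset.sum_nonneg fun _ _ => abs_nonneg _) (Finset.mem_univ c))
    have key : ∃ C : ℝ, 0 ≤ C ∧ ∀ y z b, |DD eps y z t b| ≤ C := by
      induction t with
      | zero =>
        refine ⟨∑ b : V n, |D0 b|, by positivity, fun y z b => ?_⟩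
        exact Finset.single_le_sum (f := fun b : V n => |D0 b|) (fun _ _ => abs_nonneg _)
          (Finset.mem_univ b)
      | succ t ih =>
        obtain ⟨C, hC0, hC⟩ := ih
        refine ⟨|qq n / (qq n - 1)| * ((∑ _b : V n, C * (E * E)) / |qq n| +
          C * (E * E) / |qq n|), by positivity, fun y z b => ?_⟩
        have h1 : ∀ b, |DD eps y z t b * (eps (y t) b * eps (z t) b)| ≤ C * (E * E) := by
          intro b
          rw [abs_mul, abs_mul]
          exact mul_le_mul (hC y z b) (mul_le_mul (hE _ _) (hE _ _) (abs_nonneg _) hE0)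
            (by positivity) hC0
        change |qq n / (qq n - 1) * ((∑ b', DD eps y z t b' * (eps (y t) b' * eps (z t) b')) / qq n -
          DD eps y z t b * (eps (y t) b * eps (z t) b) / qq n)| ≤ _
        rw [abs_mul]
        refine mul_le_mul_of_nonneg_left ?_ (abs_nonneg _)
        refine (abs_sub _ _).trans (add_le_add ?_ ?_)
        · rw [abs_div]
          refine div_le_div_of_nonneg_right ?_ (abs_nonneg _)
          exact (Finset.abs_sum_le_sum_abs _ _).trans (Finset.sum_le_sum fun b' _ => h1 b')
        · rw [abs_div]
          exact div_le_div_of_nonneg_right (h1 b) (abs_nonneg _)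
    obtain ⟨C, -, hC⟩ := key
    exact ⟨C, hC⟩

end Pool.Agent.W410.MK.DDL
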